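import Pool.Agent.Lib.MP_d66326_al.BRFinal
import Pool.Agent.Lib.MP_d66326_al.Sanity

set_option autoImplicit false

/-!
There is a finitely presented group which is not strongly accessible over the class of finitely
generated groups. The group is the Baumslag-Remeslennikov group
`⟨a, s, t | s t = t s, a (t⁻¹ a t) = (t⁻¹ a t) a, s⁻¹ a s = a (t⁻¹ a t)⟩`.
-/

namespace Pool.Agent.Results.MP_d66326_al.NotStronglyAccessible

open Pool.Agent.Lib.MP_d66326_al

/-- There is a finitely presented group `G` such that no hierarchy of nontrivial splittings of `G`
and of the resulting vertex groups, with finitely generated edge groups, terminates after finitely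
many stages. -/
theorem result : ∃ (G : Type) (_ : Group G),
    Group.IsFinitelyPresented G ∧ ¬ StronglyAccessible FGClass G :=
  ⟨BR, inferInstance, BR.isFinitelyPresented, BR.not_stronglyAccessible⟩

end Pool.Agent.Results.MP_d66326_al.NotStronglyAccessible
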